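import Pool.Agent.Work.MP_ce2d68_du.Interface
import Pool.Agent.Work.MP_ce2d68_st_helper90.ETG

set_option autoImplicit false

open Polynomial Filter Topology
open scoped ComplexConjugate

namespace Pool.Agent.Work.MP_ce2d68_du.h35

open Pool.Agent.Work.MP_ce2d68_st
open Pool.Agent.Work.MP_ce2d68_st.helper90 (exists_nt exists_real_of_RealP)

theorem rv_add' (f g : ℝ[X]) (z : ℂ) : rv (f + g) z = rv f z + rv g z := by
  simp [rv]

theorem rv_mul' (f g : ℝ[X]) (z : ℂ) : rv (f * g) z = rv f z * rv g z := by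
  simp [rv]

theorem rv_int (P : ℤ[X]) (z : ℂ) : rv (P.map (Int.castRingHom ℝ)) z = ev P z := by
  have h : (algebraMap ℝ ℂ).comp (Int.castRingHom ℝ) = Int.castRingHom ℂ := RingHom.ext_int _ _
  simp only [rv, ev, cp, Polynomial.map_map, h]

theorem ev_mul' (P Q : ℤ[X]) (z : ℂ) : ev (P * Q) z = ev P z * ev Q z := by
  simp [ev, cp]

/-- digits at infinity -/
theorem top_digits (n : ℕ) (B : ℕ → ℝ[X]) (hB : ∀ i, (B i).Monic ∧ (B i).natDegree = n + i) :
    ∀ (k : ℕ) (f : ℝ[X]), f.degree < ((n + k : ℕ) : WithBot ℕ) →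
      ∃ (u : ℤ[X]) (t : ℕ → ℝ) (f' : ℝ[X]), u.degree < ((n + k : ℕ) : WithBot ℕ) ∧
        (∀ i, |t i| ≤ 2) ∧ f'.degree < ((n : ℕ) : WithBot ℕ) ∧
        f = 4 * u.map (Int.castRingHom ℝ) + ∑ i ∈ Finset.range k, C (t i) * B i + f' := by
  intro k
  induction k with
  | zero =>
    intro f hf
    refine ⟨0, fun _ => 0, f, ?_, ?_, ?_, ?_⟩
    · rw [degree_zero]; exact WithBot.bot_lt_coe _
    · intro i; norm_num
    · simpa using hf
    · simp
  | succ k ih =>
    intro f hf
    obtain ⟨x, hx⟩ : ∃ x, x = f.coeff (n + k) := ⟨_, rfl⟩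
    obtain ⟨r, hr⟩ : ∃ r : ℤ, r = round (x / 4) := ⟨_, rfl⟩
    have hrb : |x - 4 * r| ≤ 2 := by
      have h1 := abs_sub_round (x / 4)
      rw [← hr] at h1
      have h2 : x - 4 * r = 4 * (x / 4 - r) := by ring
      rw [h2, abs_mul]
      have h3 : |(4 : ℝ)| = 4 := abs_of_pos (by norm_num)
      rw [h3]
      linarith
    have hBk : (B k).coeff (n + k) = 1 := by
      have h := (hB k).1.coeff_natDegree
      rw [(hB k).2] at h
      exact h
    have hf1d : (f - C (4 * (r : ℝ)) * X ^ (n + k) - C (x - 4 * r) * B k).degree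
        < ((n + k : ℕ) : WithBot ℕ) := by
      rw [degree_lt_iff_coeff_zero]
      intro m hm
      rcases Nat.lt_or_ge m (n + k + 1) with h | h
      · have hm' : m = n + k := by omega
        rw [hm', coeff_sub, coeff_sub, coeff_C_mul, coeff_C_mul, coeff_X_pow, if_pos rfl, hBk, ← hx]
        ring
      · have h1 : f.coeff m = 0 := by
          apply coeff_eq_zero_of_degree_lt
          refine lt_of_lt_of_le hf ?_
          exact_mod_cast (by omega : n + (k + 1) ≤ m)
        have h2 : (B k).coeff m = 0 := coeff_eq_zero_of_natDegree_lt (by rw [(hB k).2]; omega)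
        rw [coeff_sub, coeff_sub, coeff_C_mul, coeff_C_mul, coeff_X_pow, if_neg (by omega), h1, h2]
        ring
    obtain ⟨u, t, f', hu, ht, hf', he⟩ := ih _ hf1d
    refine ⟨u + C r * X ^ (n + k), fun i => if i = k then x - 4 * r else t i, f', ?_, ?_, hf', ?_⟩
    · refine lt_of_le_of_lt (degree_add_le _ _) (max_lt ?_ ?_)
      · refine lt_trans hu ?_
        exact_mod_cast (by omega : n + k < n + (k + 1))
      · refine lt_of_le_of_lt (degree_C_mul_X_pow_le _ _) ?_
        exact_mod_cast (by omega : n + k < n + (k + 1))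
    · intro i
      dsimp only
      split_ifs
      · exact hrb
      · exact ht i
    · have h1 : ∑ i ∈ Finset.range (k + 1), C ((fun i => if i = k then x - 4 * r else t i) i) * B i
          = ∑ i ∈ Finset.range k, C (t i) * B i + C (x - 4 * r) * B k := by
        rw [Finset.sum_range_succ]
        congr 1
        · apply Finset.sum_congr rfl
          intro i hi
          have : i ≠ k := by
            rw [Finset.mem_range] at hi; omega
          simp only [this, if_false]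
        · simp only [if_true]
      rw [h1]
      have h2 : f = (f - C (4 * (r : ℝ)) * X ^ (n + k) - C (x - 4 * r) * B k)
          + C (4 * (r : ℝ)) * X ^ (n + k) + C (x - 4 * r) * B k := by ring
      rw [h2, he]
      have h3 : (C (4 * (r : ℝ)) : ℝ[X]) = 4 * C (r : ℝ) := by
        rw [C_mul]; rfl
      have h4 : (u + C r * X ^ (n + k)).map (Int.castRingHom ℝ)
          = u.map (Int.castRingHom ℝ) + C (r : ℝ) * X ^ (n + k) := by
        simp
      rw [h3, h4]
      ring

/-- the digits at infinity with the weights -/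
theorem top_block (K : Set ℂ) (D : ℕ) (TP : ℂ → ℝ) (p₀ : ℂ[X]) (hK : IsCompact K)
    (hTP : ∀ z, 0 < TP z) (hpm : p₀.Monic) (hpr : RealP p₀) (hpd : p₀.natDegree = D)
    (hpK : ∀ z ∈ K, ‖p₀.eval z‖ ≤ TP z) :
    ∃ c : ℝ, 0 < c ∧ ∀ (q M : ℕ) (W : ℤ[X]) (T : ℂ → ℝ) (E : ℝ), q ≤ D →
      (∀ z ∈ K, ‖ev W z‖ * TP z ^ M ≤ E * T z) →
      ∀ f : ℝ[X], f.degree < (((M + 1) * D : ℕ) : WithBot ℕ) →
        ∃ (u : ℤ[X]) (h f₂ : ℝ[X]), u.degree < (((M + 1) * D : ℕ) : WithBot ℕ) ∧
          f₂.degree < ((M * D + q : ℕ) : WithBot ℕ) ∧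
          f = 4 * u.map (Int.castRingHom ℝ) + h + f₂ ∧
          ∀ z ∈ K, ‖ev W z‖ * ‖rv h z‖ ≤ c * (E * T z) := by
  obtain ⟨q₀, hq₀, hq₀d, hq₀m⟩ := exists_real_of_RealP p₀ hpr
  have hq₀m := hq₀m hpm
  obtain ⟨R₀, hR₀⟩ := hK.isBounded.exists_norm_le
  obtain ⟨R, hR1, hR⟩ : ∃ R : ℝ, 1 ≤ R ∧ ∀ z ∈ K, ‖z‖ ≤ R :=
    ⟨max R₀ 1, le_max_right _ _, fun z hz => (hR₀ z hz).trans (le_max_left _ _)⟩
  have hR0 : (0 : ℝ) < R := by linarith
  refine ⟨2 * D * R ^ D + 1, by positivity, ?_⟩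
  intro q M W T E hqD hW f hf
  have hB : ∀ i, (q₀ ^ M * X ^ (q + i)).Monic ∧ (q₀ ^ M * X ^ (q + i)).natDegree
      = (M * D + q) + i := by
    intro i
    refine ⟨(hq₀m.pow M).mul (monic_X_pow _), ?_⟩
    rw [(hq₀m.pow M).natDegree_mul (monic_X_pow _), hq₀m.natDegree_pow, natDegree_X_pow, hq₀d, hpd]
    omega
  have hn : (M * D + q) + (D - q) = (M + 1) * D := by
    have : (M + 1) * D = M * D + D := by ring
    omega
  obtain ⟨u, t, f', hu, ht, hf', he⟩ := top_digits (M * D + q) (fun i => q₀ ^ M * X ^ (q + i)) hB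
    (D - q) f (by rw [hn]; exact hf)
  refine ⟨u, ∑ i ∈ Finset.range (D - q), C (t i) * (q₀ ^ M * X ^ (q + i)), f', ?_, hf', he, ?_⟩
  · rw [hn] at hu; exact hu
  · intro z hz
    have hET : 0 ≤ E * T z := le_trans (by have := hTP z; positivity) (hW z hz)
    have h1 : ‖rv (∑ i ∈ Finset.range (D - q), C (t i) * (q₀ ^ M * X ^ (q + i))) z‖
        ≤ (2 * D * R ^ D) * TP z ^ M := by
      have h2 : rv (∑ i ∈ Finset.range (D - q), C (t i) * (q₀ ^ M * X ^ (q + i))) z
          = ∑ i ∈ Finset.range (D - q), ((t i : ℝ) : ℂ) * ((p₀.eval z) ^ M * z ^ (q + i)) := by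
        rw [rv, Polynomial.map_sum, eval_finsetSum]
        apply Finset.sum_congr rfl
        intro i _
        rw [Polynomial.map_mul, Polynomial.map_mul, Polynomial.map_pow, hq₀]
        simp
      rw [h2]
      have h3 : ∀ i ∈ Finset.range (D - q),
          ‖((t i : ℝ) : ℂ) * ((p₀.eval z) ^ M * z ^ (q + i))‖ ≤ 2 * (TP z ^ M * R ^ D) := by
        intro i hi
        rw [Finset.mem_range] at hi
        rw [norm_mul, norm_mul, norm_pow, norm_pow]
        have e1 : ‖((t i : ℝ) : ℂ)‖ ≤ 2 := by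
          rw [Complex.norm_real]; exact ht i
        have e2 : ‖p₀.eval z‖ ^ M ≤ TP z ^ M := pow_le_pow_left₀ (norm_nonneg _) (hpK z hz) M
        have e3 : ‖z‖ ^ (q + i) ≤ R ^ D :=
          (pow_le_pow_left₀ (norm_nonneg _) (hR z hz) _).trans
            (pow_le_pow_right₀ hR1 (by omega))
        have e4 := hTP z
        apply mul_le_mul e1 _ (by positivity) (by norm_num)
        exact mul_le_mul e2 e3 (by positivity) (by positivity)
      refine (norm_sum_le_of_le _ h3).trans ?_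
      rw [Finset.sum_const, Finset.card_range, nsmul_eq_mul]
      have e5 : ((D - q : ℕ) : ℝ) ≤ D := by exact_mod_cast Nat.sub_le _ _
      have e4 := hTP z
      calc ((D - q : ℕ) : ℝ) * (2 * (TP z ^ M * R ^ D)) ≤ D * (2 * (TP z ^ M * R ^ D)) :=
            mul_le_mul_of_nonneg_right e5 (by positivity)
        _ = (2 * D * R ^ D) * TP z ^ M := by ring
    calc ‖ev W z‖ * ‖rv (∑ i ∈ Finset.range (D - q), C (t i) * (q₀ ^ M * X ^ (q + i))) z‖
        ≤ ‖ev W z‖ * ((2 * D * R ^ D) * TP z ^ M) := mul_le_mul_of_nonneg_left h1 (norm_nonneg _)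
      _ = (2 * D * R ^ D) * (‖ev W z‖ * TP z ^ M) := by ring
      _ ≤ (2 * D * R ^ D) * (E * T z) := mul_le_mul_of_nonneg_left (hW z hz) (by positivity)
      _ ≤ (2 * D * R ^ D + 1) * (E * T z) := mul_le_mul_of_nonneg_right (by linarith) hET

/-- the exponent of one digit -/
theorem avg_le (P : ℤ[X]) (D M : ℕ) (TP : ℂ → ℝ) (A E : ℝ) (hM : 1 ≤ M) (hE : 0 < E)
    (hd : 0 < P.natDegree) (hcard : (rts P).card = P.natDegree)
    (hAP : -(A * P.natDegree) ≤ D * llc P + ∑ a ∈ rts P, Real.log (TP a)) :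
    Real.exp ((∑ a ∈ rts P, (Real.log E - M * Real.log (TP a)) - ((M - 1) * D : ℕ) * llc P)
      / P.natDegree) ≤ Real.exp (D * llc P / P.natDegree) * Real.exp (A * M) * E := by
  have hd' : (0 : ℝ) < P.natDegree := by exact_mod_cast hd
  have h0 : Real.exp (D * llc P / P.natDegree) * Real.exp (A * M) * E
      = Real.exp (D * llc P / P.natDegree + A * M + Real.log E) := by
    rw [Real.exp_add, Real.exp_add, Real.exp_log hE]
  rw [h0, Real.exp_le_exp, div_le_iff₀ hd']
  have h1 : ∑ a ∈ rts P, (Real.log E - M * Real.log (TP a))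
      = P.natDegree * Real.log E - M * ∑ a ∈ rts P, Real.log (TP a) := by
    rw [Finset.sum_sub_distrib, Finset.sum_const, hcard, nsmul_eq_mul, Finset.mul_sum]
  have h2 : (((M - 1) * D : ℕ) : ℝ) = (M - 1) * D := by
    rw [Nat.cast_mul, Nat.cast_sub hM, Nat.cast_one]
  have h3 : (D * llc P / P.natDegree + A * M + Real.log E) * P.natDegree
      = D * llc P + A * M * P.natDegree + P.natDegree * Real.log E := by
    field_simp
  rw [h1, h2, h3]
  have hM' : (0 : ℝ) ≤ M := Nat.cast_nonneg _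
  nlinarith [mul_le_mul_of_nonneg_left hAP hM']

/-- the digits of one block -/
theorem list_block (hB : Stmt_NBAS) (hDg : Stmt_NDIG) (K : Set ℂ) (D : ℕ) (TP : ℂ → ℝ) (A : ℝ)
    (hK : IsCompact K) (hKc : ∀ z ∈ K, conj z ∈ K) (hBlk : Blk D TP) (hTPs : Sym TP) :
    ∀ Ls : List ℤ[X], (∀ P ∈ Ls, IP P) → sd Ls ≤ D →
      (∀ P ∈ Ls, -(A * P.natDegree) ≤ D * llc P + ∑ a ∈ rts P, Real.log (TP a)) →
      ∃ c : ℝ, 0 < c ∧ ∀ (M : ℕ) (W : ℤ[X]) (T : ℂ → ℝ) (E : ℝ), 1 ≤ M → 0 < E → Sym T →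
        (∀ z ∈ K, 0 ≤ T z) → (∀ z ∈ K, ‖ev W z‖ * TP z ^ M ≤ E * T z) →
        ∀ f : ℝ[X], f.degree < ((M * D + sd Ls : ℕ) : WithBot ℕ) →
          ∃ (u : ℤ[X]) (h f₂ : ℝ[X]), u.degree < ((M * D + sd Ls : ℕ) : WithBot ℕ) ∧
            f₂.degree < ((M * D : ℕ) : WithBot ℕ) ∧
            f = 4 * u.map (Int.castRingHom ℝ) + h + Ls.prod.map (Int.castRingHom ℝ) * f₂ ∧
            ∀ z ∈ K, ‖ev W z‖ * ‖rv h z‖ ≤ c * Real.exp (A * M) * E * T z := by
  obtain ⟨nt, hnt⟩ := exists_nt D TP hBlk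
  intro Ls
  induction Ls with
  | nil =>
    intro _ _ _
    refine ⟨1, one_pos, ?_⟩
    intro M W T E _ hE _ hT0 _ f hf
    refine ⟨0, 0, f, ?_, ?_, ?_, ?_⟩
    · rw [degree_zero]; exact WithBot.bot_lt_coe _
    · simpa [sd] using hf
    · simp
    · intro z hz
      have h1 := hT0 z hz
      have h2 : rv 0 z = 0 := by simp [rv]
      rw [h2, norm_zero, mul_zero]
      positivity
  | cons P Ls ih =>
    intro hIP hsd hAP
    have hPi : IP P := hIP P (by simp)
    have hsd' : sd (P :: Ls) = P.natDegree + sd Ls := by simp [sd]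
    obtain ⟨-, hcard, -, -, -, -⟩ := hB P hPi
    have hPA := hAP P (by simp)
    obtain ⟨c₂, hc₂, ih⟩ := ih (fun Q hQ => hIP Q (by simp [hQ])) (by omega)
      (fun Q hQ => hAP Q (by simp [hQ]))
    obtain ⟨c₁, hc₁, hdig⟩ := hDg K hK hKc P hPi
    -- bound of P on K
    obtain ⟨CP, hCP0, hCP⟩ : ∃ CP : ℝ, 0 < CP ∧ ∀ z ∈ K, ‖ev P z‖ ≤ CP := by
      have hcont : ContinuousOn (fun z => ev P z) K := by
        have : Continuous (fun z => ev P z) := by
          unfold ev; exact (cp P).continuous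
        exact this.continuousOn
      obtain ⟨C₀, hC₀⟩ := hK.exists_bound_of_continuousOn hcont
      exact ⟨max C₀ 1, lt_of_lt_of_le one_pos (le_max_right _ _),
        fun z hz => (hC₀ z hz).trans (le_max_left _ _)⟩
    refine ⟨c₁ * Real.exp (D * llc P / P.natDegree) + c₂ * CP, by positivity, ?_⟩
    intro M W T E hM hE hTs hT0 hW f hf
    rw [hsd'] at hf
    have hML : (M - 1) * D + D = M * D := by
      obtain ⟨M', rfl⟩ : ∃ M', M = M' + 1 := ⟨M - 1, by omega⟩
      simp; ring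
    obtain ⟨u₁, h₁, f', hu₁, -, hf', he₁, hb₁⟩ := hdig W T (M * D + (P.natDegree + sd Ls))
      ((M - 1) * D) (fun a => Real.log E - M * Real.log (TP a)) (fun a => nt a ^ M) hTs hT0
      (by intro a; dsimp only; rw [hTPs a]) (by omega)
      (by
        intro a _
        obtain ⟨h1, h2, h3⟩ := hnt a
        refine ⟨?_, ?_, ?_⟩
        · have e1 : (nt a ^ M).natDegree ≤ M * D :=
            natDegree_pow_le.trans (Nat.mul_le_mul_left _ h1)
          omega
        · rw [eval_pow, h2, one_pow]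
        · intro z hz
          have ha := hBlk.2.1 a
          have e1 : ‖(nt a ^ M).eval z‖ ≤ (TP z / TP a) ^ M := by
            rw [eval_pow, norm_pow]
            exact pow_le_pow_left₀ (norm_nonneg _) (h3 z) _
          have e2 : Real.exp (Real.log E - M * Real.log (TP a)) = E / TP a ^ M := by
            rw [Real.exp_sub, Real.exp_log hE, Real.exp_nat_mul, Real.exp_log ha]
          rw [e2]
          calc ‖ev W z‖ * ‖(nt a ^ M).eval z‖ ≤ ‖ev W z‖ * (TP z / TP a) ^ M :=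
                mul_le_mul_of_nonneg_left e1 (norm_nonneg _)
            _ = (‖ev W z‖ * TP z ^ M) / TP a ^ M := by rw [div_pow]; ring
            _ ≤ (E * T z) / TP a ^ M := div_le_div_of_nonneg_right (hW z hz) (by positivity)
            _ = E / TP a ^ M * T z := by ring)
      f hf
    have hD' : M * D + (P.natDegree + sd Ls) - P.natDegree = M * D + sd Ls := by omega
    rw [hD'] at hf'
    obtain ⟨u₂, h₂, f₂, hu₂, hf₂, he₂, hb₂⟩ := ih M (W * P) T (CP * E) hM (by positivity) hTs hT0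
      (by
        intro z hz
        rw [ev_mul', norm_mul]
        have e1 := hCP z hz
        have e2 := hW z hz
        have e3 := hBlk.2.1 z
        calc ‖ev W z‖ * ‖ev P z‖ * TP z ^ M = ‖ev P z‖ * (‖ev W z‖ * TP z ^ M) := by ring
          _ ≤ CP * (E * T z) := mul_le_mul e1 e2 (by positivity) hCP0.le
          _ = CP * E * T z := by ring)
      f' hf'
    refine ⟨u₁ + P * u₂, h₁ + P.map (Int.castRingHom ℝ) * h₂, f₂, ?_, hf₂, ?_, ?_⟩
    · rw [hsd']
      refine lt_of_le_of_lt (degree_add_le _ _) (max_lt hu₁ ?_)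
      rcases eq_or_ne u₂ 0 with h0 | h0
      · rw [h0, mul_zero, degree_zero]; exact WithBot.bot_lt_coe _
      · have hP0 : P ≠ 0 := hPi.1.ne_zero
        rw [degree_mul, degree_eq_natDegree hP0, degree_eq_natDegree h0]
        rw [degree_eq_natDegree h0] at hu₂
        have h1 : u₂.natDegree < M * D + sd Ls := by exact_mod_cast hu₂
        exact_mod_cast (by omega : P.natDegree + u₂.natDegree < M * D + (P.natDegree + sd Ls))
    · rw [he₁, he₂, List.prod_cons, Polynomial.map_add, Polynomial.map_mul, Polynomial.map_mul]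
      ring
    · intro z hz
      have hT := hT0 z hz
      have e1 := hb₁ z hz
      have e2 := hb₂ z hz
      have e3 := avg_le P D M TP A E hM hE hPi.2 hcard hPA
      rw [rv_add', rv_mul', rv_int]
      rw [ev_mul', norm_mul] at e2
      have e4 : ‖ev W z‖ * ‖rv h₁ z‖
          ≤ c₁ * (Real.exp (D * llc P / P.natDegree) * Real.exp (A * M) * E) * T z :=
        e1.trans (mul_le_mul_of_nonneg_right (mul_le_mul_of_nonneg_left e3 hc₁.le) hT)
      calc ‖ev W z‖ * ‖rv h₁ z + ev P z * rv h₂ z‖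
          ≤ ‖ev W z‖ * (‖rv h₁ z‖ + ‖ev P z‖ * ‖rv h₂ z‖) := by
            apply mul_le_mul_of_nonneg_left _ (norm_nonneg _)
            refine (norm_add_le _ _).trans ?_
            rw [norm_mul]
        _ = ‖ev W z‖ * ‖rv h₁ z‖ + ‖ev W z‖ * ‖ev P z‖ * ‖rv h₂ z‖ := by ring
        _ ≤ c₁ * (Real.exp (D * llc P / P.natDegree) * Real.exp (A * M) * E) * T z
            + c₂ * Real.exp (A * M) * (CP * E) * T z := add_le_add e4 e2
        _ = (c₁ * Real.exp (D * llc P / P.natDegree) + c₂ * CP) * Real.exp (A * M) * E * T z := by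
            ring

theorem p_NBLK (hB : Stmt_NBAS) (hD : Stmt_NDIG) : Stmt_NBLK := by
  intro K Ls D TP p₀ A hK hKc hIP hsd hBlk hTPs hpm hpr hpd hpK hA hAP
  obtain ⟨c₁, hc₁, htop⟩ := top_block K D TP p₀ hK hBlk.2.1 hpm hpr hpd hpK
  obtain ⟨c₂, hc₂, hlist⟩ := list_block hB hD K D TP A hK hKc hBlk hTPs Ls hIP hsd hAP
  refine ⟨c₁ + c₂, by positivity, ?_⟩
  intro M W T E hE hTs hT0 hW f hf
  rcases Nat.eq_zero_or_pos M with hM | hM
  · subst hM
    obtain ⟨u, h, f₂, hu, hf₂, he, hb⟩ := htop 0 0 W T E (Nat.zero_le _) hW f hf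
    have hf0 : f₂ = 0 := by
      rw [← degree_eq_bot]
      have h1 : f₂.degree < ((0 : ℕ) : WithBot ℕ) := by simpa using hf₂
      by_contra h2
      rw [degree_eq_bot] at h2
      rw [degree_eq_natDegree h2] at h1
      have : f₂.natDegree < 0 := by exact_mod_cast h1
      omega
    refine ⟨u, h, 0, hu, ?_, ?_, ?_⟩
    · rw [degree_zero]; exact WithBot.bot_lt_coe _
    · rw [he, hf0]; simp
    · intro z hz
      have hT := hT0 z hz
      refine (hb z hz).trans ?_
      simp only [Nat.cast_zero, mul_zero, Real.exp_zero, mul_one]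
      rw [mul_assoc (c₁ + c₂)]
      exact mul_le_mul_of_nonneg_right (by linarith) (by positivity)
  · obtain ⟨u₀, h₀, f', hu₀, hf', he₀, hb₀⟩ := htop (sd Ls) M W T E hsd hW f hf
    obtain ⟨u₁, h₁, f₂, hu₁, hf₂, he₁, hb₁⟩ := hlist M W T E hM hE hTs hT0 hW f' hf'
    refine ⟨u₀ + u₁, h₀ + h₁, f₂, ?_, hf₂, ?_, ?_⟩
    · refine lt_of_le_of_lt (degree_add_le _ _) (max_lt hu₀ (lt_of_lt_of_le hu₁ ?_))
      have : M * D + sd Ls ≤ (M + 1) * D := by
        have : (M + 1) * D = M * D + D := by ring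
        omega
      exact_mod_cast this
    · rw [he₀, he₁, Polynomial.map_add]
      ring
    · intro z hz
      have hT := hT0 z hz
      have e1 := hb₀ z hz
      have e2 := hb₁ z hz
      have e3 : (1 : ℝ) ≤ Real.exp (A * M) := Real.one_le_exp (by positivity)
      rw [rv_add']
      calc ‖ev W z‖ * ‖rv h₀ z + rv h₁ z‖ ≤ ‖ev W z‖ * (‖rv h₀ z‖ + ‖rv h₁ z‖) :=
            mul_le_mul_of_nonneg_left (norm_add_le _ _) (norm_nonneg _)
        _ = ‖ev W z‖ * ‖rv h₀ z‖ + ‖ev W z‖ * ‖rv h₁ z‖ := by ring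
        _ ≤ c₁ * (E * T z) + c₂ * Real.exp (A * M) * E * T z := add_le_add e1 e2
        _ ≤ c₁ * (Real.exp (A * M) * (E * T z)) + c₂ * Real.exp (A * M) * E * T z := by
            have : E * T z ≤ Real.exp (A * M) * (E * T z) :=
              le_mul_of_one_le_left (by positivity) e3
            have := mul_le_mul_of_nonneg_left this hc₁.le
            linarith
        _ = (c₁ + c₂) * Real.exp (A * M) * E * T z := by ring

end Pool.Agent.Work.MP_ce2d68_du.h35
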