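import Pool.Agent.Work.MP_ce2d68_du.Interface
import Pool.Agent.Work.MP_ce2d68_st_helper90.ETG

set_option autoImplicit false

open Polynomial Filter Topology
open scoped ComplexConjugate

namespace Pool.Agent.Work.MP_ce2d68_du.h35

open Pool.Agent.Work.MP_ce2d68_st
open Pool.Agent.Work.MP_ce2d68_st.helper90 (exists_real_of_RealP geo_bound exists_large)

namespace EXT

theorem rv_add (f g : ℝ[X]) (z : ℂ) : rv (f + g) z = rv f z + rv g z := by
  simp [rv]

theorem rv_mul (f g : ℝ[X]) (z : ℂ) : rv (f * g) z = rv f z * rv g z := by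
  simp [rv]

theorem rv_int (P : ℤ[X]) (z : ℂ) : rv (P.map (Int.castRingHom ℝ)) z = ev P z := by
  have h : (algebraMap ℝ ℂ).comp (Int.castRingHom ℝ) = Int.castRingHom ℂ := RingHom.ext_int _ _
  simp only [rv, ev, cp, Polynomial.map_map, h]

theorem ev_pow (P : ℤ[X]) (s : ℕ) (z : ℂ) : ev (P ^ s) z = ev P z ^ s := by
  simp [ev, cp]

/-- the hypothesis of `NBLK` in block `s` -/
theorem weight (TPz TOz x lam om C₀ : ℝ) (N s M : ℕ) (hN : N = s + 1 + M) (hTP : 0 < TPz)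
    (hTO : 0 < TOz) (hx : 0 ≤ x) (hxl : x ≤ Real.exp lam * TPz) (hom : Real.exp om ≤ TOz)
    (hC : 1 ≤ C₀ * TPz) (hC0 : 0 < C₀) :
    x ^ s * TPz ^ M ≤ C₀ * Real.exp (lam * s - om * N) * (TPz * TOz) ^ N := by
  have h1 : x ^ s ≤ Real.exp lam ^ s * TPz ^ s := by
    rw [← mul_pow]; exact pow_le_pow_left₀ hx hxl s
  have h2 : (1 : ℝ) ≤ Real.exp (-(om * N)) * TOz ^ N := by
    have h5 : Real.exp (om * N) ≤ TOz ^ N := by
      have : Real.exp (om * N) = Real.exp om ^ N := by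
        rw [← Real.exp_nat_mul]; congr 1; ring
      rw [this]
      exact pow_le_pow_left₀ (Real.exp_pos _).le hom N
    calc (1 : ℝ) = Real.exp (-(om * N)) * Real.exp (om * N) := by
          rw [← Real.exp_add]; simp
      _ ≤ _ := mul_le_mul_of_nonneg_left h5 (Real.exp_pos _).le
  have e1 : Real.exp (lam * s - om * N) = Real.exp lam ^ s * Real.exp (-(om * N)) := by
    have : Real.exp lam ^ s = Real.exp (lam * s) := by
      rw [← Real.exp_nat_mul]; congr 1; ring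
    rw [this, ← Real.exp_add]; congr 1
  have e2 : TPz ^ N = TPz ^ s * TPz * TPz ^ M := by
    rw [← pow_succ, ← pow_add, ← hN]
  calc x ^ s * TPz ^ M ≤ (Real.exp lam ^ s * TPz ^ s) * TPz ^ M :=
        mul_le_mul_of_nonneg_right h1 (by positivity)
    _ = (Real.exp lam ^ s * TPz ^ s * TPz ^ M) * 1 := by ring
    _ ≤ (Real.exp lam ^ s * TPz ^ s * TPz ^ M) * ((C₀ * TPz) * (Real.exp (-(om * N)) * TOz ^ N)) := by
        apply mul_le_mul_of_nonneg_left _ (by positivity)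
        calc (1 : ℝ) = 1 * 1 := by ring
          _ ≤ (C₀ * TPz) * (Real.exp (-(om * N)) * TOz ^ N) :=
            mul_le_mul hC h2 zero_le_one (by positivity)
    _ = C₀ * (Real.exp lam ^ s * Real.exp (-(om * N))) * ((TPz ^ s * TPz * TPz ^ M) * TOz ^ N) := by
        ring
    _ = C₀ * Real.exp (lam * s - om * N) * (TPz * TOz) ^ N := by
        rw [e1, mul_pow, e2]

/-- the error of block `s` -/
theorem expo (A lam om : ℝ) (N s M : ℕ) (hN : N = s + 1 + M) (hA : 0 ≤ A) (hlam : 0 ≤ lam)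
    (hiv : max A lam + 1 ≤ om) : A * M + (lam * s - om * N) ≤ -(N : ℝ) := by
  have hM : (0 : ℝ) ≤ M := Nat.cast_nonneg _
  have hs : (0 : ℝ) ≤ s := Nat.cast_nonneg _
  have hNr : (N : ℝ) = s + 1 + M := by exact_mod_cast hN
  have e1 : lam * s ≤ max A lam * s := mul_le_mul_of_nonneg_right (le_max_right _ _) hs
  have e2 : A * M ≤ max A lam * M := mul_le_mul_of_nonneg_right (le_max_left _ _) hM
  have e3 : 0 ≤ max A lam := hA.trans (le_max_left _ _)
  have h4 : (max A lam + 1) * N ≤ om * N := mul_le_mul_of_nonneg_right hiv (Nat.cast_nonneg _)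
  have h5 : max A lam * N = max A lam * s + max A lam + max A lam * M := by rw [hNr]; ring
  nlinarith

theorem natDegree_prod_le (Ls : List ℤ[X]) : Ls.prod.natDegree ≤ sd Ls := by
  induction Ls with
  | nil => simp [sd]
  | cons P Ls ih =>
    rw [List.prod_cons]
    refine natDegree_mul_le.trans ?_
    have : sd (P :: Ls) = P.natDegree + sd Ls := by simp [sd]
    rw [this]
    omega

/-- all blocks -/
theorem blocks (K : Set ℂ) (Ls : List ℤ[X]) (D : ℕ) (TP TO : ℂ → ℝ) (lam A om c C₀ : ℝ) (N : ℕ)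
    (hsd : sd Ls ≤ D) (hTPpos : ∀ z, 0 < TP z) (hTPs : Sym TP) (hTOpos : ∀ z, 0 < TO z)
    (hTOs : Sym TO) (hlam : 0 ≤ lam) (hA : 0 ≤ A)
    (hi : ∀ z ∈ K, ‖ev Ls.prod z‖ ≤ Real.exp lam * TP z) (hii : ∀ z ∈ K, Real.exp om ≤ TO z)
    (hiv : max A lam + 1 ≤ om) (hc0 : 0 < c) (hC₀ : 0 < C₀) (hC : ∀ z ∈ K, 1 ≤ C₀ * TP z)
    (hc : ∀ (M : ℕ) (W : ℤ[X]) (T : ℂ → ℝ) (E : ℝ), 0 < E → Sym T →
      (∀ z ∈ K, 0 ≤ T z) → (∀ z ∈ K, ‖ev W z‖ * TP z ^ M ≤ E * T z) →
      ∀ f : ℝ[X], f.degree < (((M + 1) * D : ℕ) : WithBot ℕ) →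
        ∃ (u : ℤ[X]) (h f₂ : ℝ[X]), u.degree < (((M + 1) * D : ℕ) : WithBot ℕ) ∧
          f₂.degree < ((M * D : ℕ) : WithBot ℕ) ∧
          f = 4 * u.map (Int.castRingHom ℝ) + h + Ls.prod.map (Int.castRingHom ℝ) * f₂ ∧
          ∀ z ∈ K, ‖ev W z‖ * ‖rv h z‖ ≤ c * Real.exp (A * M) * E * T z)
    (f : ℝ[X]) (hf : f.degree < ((N * D : ℕ) : WithBot ℕ)) :
    ∀ s : ℕ, s ≤ N → ∃ (U : ℤ[X]) (h f' : ℝ[X]), U.degree < ((N * D : ℕ) : WithBot ℕ) ∧
      f'.degree < (((N - s) * D : ℕ) : WithBot ℕ) ∧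
      f = 4 * U.map (Int.castRingHom ℝ) + h + (Ls.prod ^ s).map (Int.castRingHom ℝ) * f' ∧
      ∀ z ∈ K, ‖rv h z‖ ≤ s * (c * C₀ * Real.exp (-(N : ℝ))) * (TP z * TO z) ^ N := by
  intro s
  induction s with
  | zero =>
    intro _
    refine ⟨0, 0, f, ?_, ?_, ?_, ?_⟩
    · rw [degree_zero]; exact WithBot.bot_lt_coe _
    · simpa using hf
    · simp
    · intro z _
      simp [rv]
  | succ s ih =>
    intro hs
    obtain ⟨U, h, f', hU, hf', he, hb⟩ := ih (by omega)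
    obtain ⟨M, hM⟩ : ∃ M, N = s + 1 + M := ⟨N - (s + 1), by omega⟩
    have hNs : N - s = M + 1 := by omega
    rw [hNs] at hf'
    obtain ⟨u, g, f₂, hu, hf₂, he₂, hb₂⟩ := hc M (Ls.prod ^ s) (fun z => (TP z * TO z) ^ N)
      (C₀ * Real.exp (lam * s - om * N)) (by positivity)
      (by intro z; show (TP _ * TO _) ^ N = (TP z * TO z) ^ N; rw [hTPs z, hTOs z])
      (fun z _ => (pow_pos (mul_pos (hTPpos z) (hTOpos z)) N).le)
      (by
        intro z hz
        rw [ev_pow, norm_pow]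
        exact weight (TP z) (TO z) ‖ev Ls.prod z‖ lam om C₀ N s M hM (hTPpos z) (hTOpos z)
          (norm_nonneg _) (hi z hz) (hii z hz) (hC z hz) hC₀)
      f' hf'
    refine ⟨U + Ls.prod ^ s * u, h + (Ls.prod ^ s).map (Int.castRingHom ℝ) * g, f₂, ?_, ?_, ?_, ?_⟩
    · refine lt_of_le_of_lt (degree_add_le _ _) (max_lt hU ?_)
      rcases eq_or_ne (Ls.prod ^ s * u) 0 with h0 | h0
      · rw [h0, degree_zero]; exact WithBot.bot_lt_coe _
      · have hu0 : u ≠ 0 := right_ne_zero_of_mul h0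
        have h1 : u.natDegree < (M + 1) * D := (Polynomial.natDegree_lt_iff_degree_lt hu0).mpr hu
        have h2 : (Ls.prod ^ s).natDegree ≤ s * D :=
          natDegree_pow_le.trans (Nat.mul_le_mul_left _ ((natDegree_prod_le Ls).trans hsd))
        have h3 : (Ls.prod ^ s * u).natDegree < N * D := by
          refine lt_of_le_of_lt natDegree_mul_le ?_
          have : N * D = s * D + (M + 1) * D := by rw [hM]; ring
          omega
        exact (Polynomial.natDegree_lt_iff_degree_lt h0).mp h3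
    · have : N - (s + 1) = M := by omega
      rw [this]; exact hf₂
    · rw [he, he₂, Polynomial.map_add, Polynomial.map_mul, pow_succ, Polynomial.map_mul]
      ring
    · intro z hz
      have h1 := hb z hz
      have h2 := hb₂ z hz
      have hT : 0 < (TP z * TO z) ^ N := pow_pos (mul_pos (hTPpos z) (hTOpos z)) N
      have h3 : c * Real.exp (A * M) * (C₀ * Real.exp (lam * s - om * N))
          ≤ c * C₀ * Real.exp (-(N : ℝ)) := by
        have e1 : Real.exp (A * M) * Real.exp (lam * s - om * N) ≤ Real.exp (-(N : ℝ)) := by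
          rw [← Real.exp_add]
          exact Real.exp_le_exp.mpr (expo A lam om N s M hM hA hlam hiv)
        calc c * Real.exp (A * M) * (C₀ * Real.exp (lam * s - om * N))
            = (c * C₀) * (Real.exp (A * M) * Real.exp (lam * s - om * N)) := by ring
          _ ≤ (c * C₀) * Real.exp (-(N : ℝ)) := mul_le_mul_of_nonneg_left e1 (by positivity)
      rw [rv_add, rv_mul, rv_int]
      calc ‖rv h z + ev (Ls.prod ^ s) z * rv g z‖
          ≤ ‖rv h z‖ + ‖ev (Ls.prod ^ s) z‖ * ‖rv g z‖ := by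
            refine (norm_add_le _ _).trans ?_
            rw [norm_mul]
        _ ≤ s * (c * C₀ * Real.exp (-(N : ℝ))) * (TP z * TO z) ^ N
            + c * Real.exp (A * M) * (C₀ * Real.exp (lam * s - om * N)) * (TP z * TO z) ^ N :=
            add_le_add h1 h2
        _ ≤ s * (c * C₀ * Real.exp (-(N : ℝ))) * (TP z * TO z) ^ N
            + c * C₀ * Real.exp (-(N : ℝ)) * (TP z * TO z) ^ N :=
            add_le_add le_rfl (mul_le_mul_of_nonneg_right h3 hT.le)
        _ = ((s + 1 : ℕ) : ℝ) * (c * C₀ * Real.exp (-(N : ℝ))) * (TP z * TO z) ^ N := by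
            push_cast; ring

end EXT

open EXT in
theorem p_EXT (hB : Stmt_NBAS) (hK' : Stmt_NBLK) (hT' : Stmt_TOPP) (hM' : Stmt_MAXP)
    (hE' : Stmt_EIS) : Stmt_EXT := by
  intro K Ls D m TP TO p₀ p lam A om hK hKc hIP hsd hD1 hTP hTPs hTO hTOpos hTOs hlam hA hi hii
    hiii hiv hp₀m hp₀r hp₀d hp₀K hp hpd hpr hpK hpoff hBB N₀
  have hTPpos := hTP.2.1
  -- the function T
  obtain ⟨T, hT⟩ : ∃ T : ℂ → ℝ, T = fun z => TP z * TO z := ⟨_, rfl⟩
  have hTz : ∀ z, T z = TP z * TO z := fun z => by rw [hT]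
  have hTpos : ∀ z, 0 < T z := fun z => by
    rw [hTz]; exact mul_pos (hTPpos z) (hTOpos z)
  have hTcont : Continuous T := by
    rw [hT]; exact hTP.1.mul hTO
  -- the constant C₀
  obtain ⟨C₀, hC₀, hC⟩ : ∃ C₀ : ℝ, 0 < C₀ ∧ ∀ z ∈ K, 1 ≤ C₀ * TP z := by
    have hcont : ContinuousOn (fun z : ℂ => 1 / TP z) K := by
      apply Continuous.continuousOn
      exact continuous_const.div hTP.1 (fun z => (hTPpos z).ne')
    obtain ⟨B, hB'⟩ := hK.bddAbove_image hcont
    refine ⟨max B 1, lt_of_lt_of_le one_pos (le_max_right _ _), ?_⟩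
    intro z hz
    have h1 : 1 / TP z ≤ max B 1 := (hB' ⟨z, hz, rfl⟩).trans (le_max_left _ _)
    rwa [div_le_iff₀ (hTPpos z)] at h1
  obtain ⟨c, hc0, hc⟩ := hK' K Ls D TP p₀ A hK hKc hIP hsd hTP hTPs hp₀m hp₀r hp₀d hp₀K hA hiii
  obtain ⟨N, hN0, hN1, hNsmall⟩ := exists_large c C₀ 0 0 N₀
  refine ⟨N, hN0, ?_⟩
  -- degrees
  obtain ⟨n, hn⟩ : ∃ n, n = N * (D + m) := ⟨_, rfl⟩
  obtain ⟨m', hm'⟩ : ∃ m', m' = N * m := ⟨_, rfl⟩
  have hnm' : n = m' + N * D := by rw [hn, hm']; ring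
  have hnm : n - m' = N * D := by omega
  have hpos : 1 ≤ N * D := Nat.mul_pos hN1 hD1
  have hmn : m' < n := by omega
  -- the polynomial H
  obtain ⟨H, hH⟩ : ∃ H : ℤ[X], H = X ^ (N * D) := ⟨_, rfl⟩
  have hHm : H.Monic := by rw [hH]; exact monic_X_pow _
  have hHd : H.natDegree = n - m' := by
    rw [hnm, hH, natDegree_X_pow]
  -- real versions
  obtain ⟨pR, hpR, hpRd, hpRm⟩ := exists_real_of_RealP p hpr
  have hpRm' := hpRm hp
  have hBex : ∀ i ∈ Finset.Icc 1 m', ∃ B : ℝ[X], B.Monic ∧ B.natDegree = n - i ∧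
      ∀ z ∈ K, ‖rv B z‖ ≤ (1 / 10 : ℝ) ^ i * T z ^ N := by
    intro i hi'
    rw [hm'] at hi'
    obtain ⟨B, hB1, hB2, hB3, hB4⟩ := hBB N hN1 i hi'
    obtain ⟨BR, hBR, hBRd, hBRm⟩ := exists_real_of_RealP B hB2
    refine ⟨BR, hBRm hB1, by rw [hBRd, hB3, hn], ?_⟩
    intro z hz
    rw [rv, hBR, hTz]
    exact hB4 z hz
  choose! B hBm hBd hBb using hBex
  obtain ⟨t, v, ht, hvd, hdeg⟩ := hT' n m' H (pR ^ N) B hmn hHm hHd (hpRm'.pow N)
    (by rw [hpRm'.natDegree_pow, hpRd, hpd, hn]) (fun i hi' => ⟨hBm i hi', hBd i hi'⟩)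
  rw [hnm] at hdeg
  obtain ⟨f, hf⟩ : ∃ f : ℝ[X], f = pR ^ N + ∑ i ∈ Finset.Icc 1 m', C (t i) * B i - X ^ n - 2
        - 4 * (H * v).map (Int.castRingHom ℝ) := ⟨_, rfl⟩
  rw [← hf] at hdeg
  -- all blocks
  obtain ⟨U, h, f', hUd, hf', hfe', hhb⟩ := blocks K Ls D TP TO lam A om c C₀ N hsd hTPpos hTPs
    hTOpos hTOs hlam hA hi hii hiv hc0 hC₀ hC hc f hdeg N le_rfl
  have hf0 : f' = 0 := by
    rw [Nat.sub_self, zero_mul] at hf'
    by_contra h2
    rw [degree_eq_natDegree h2] at hf'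
    have : f'.natDegree < 0 := by exact_mod_cast hf'
    omega
  have hfe : f = 4 * U.map (Int.castRingHom ℝ) + h := by
    rw [hfe', hf0]; simp
  -- the error term
  have hhb' : ∀ z ∈ K, ‖rv h z‖ ≤ 1 / 4 * T z ^ N := by
    intro z hz
    refine (hhb z hz).trans ?_
    rw [hTz]
    apply mul_le_mul_of_nonneg_right _ (pow_pos (mul_pos (hTPpos z) (hTOpos z)) N).le
    refine le_trans (le_of_eq ?_) hNsmall
    ring
  -- the polynomial F
  have hHvU : (H * v + U).degree < (n : WithBot ℕ) := by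
    refine lt_of_le_of_lt (degree_add_le _ _) (max_lt ?_ ?_)
    · by_cases hv0 : v = 0
      · rw [hv0, mul_zero, degree_zero]; exact WithBot.bot_lt_coe _
      · have h1 : v.natDegree < m' := (Polynomial.natDegree_lt_iff_degree_lt hv0).mpr hvd
        have h2 : (H * v).natDegree < n := by
          refine lt_of_le_of_lt Polynomial.natDegree_mul_le ?_
          rw [hHd]
          omega
        exact (Polynomial.natDegree_lt_iff_degree_lt (mul_ne_zero hHm.ne_zero hv0)).mp h2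
    · refine hUd.trans_le ?_
      have : N * D ≤ n := by omega
      exact_mod_cast this
  obtain ⟨hFm, hFd, hFi, hF0⟩ := hE' n (H * v + U) (by omega) hHvU
  obtain ⟨F, hF⟩ : ∃ F : ℤ[X], F = X ^ n + 2 + 4 * (H * v + U) := ⟨_, rfl⟩
  rw [← hF] at hFm hFd hFi hF0
  have hFR : F.map (Int.castRingHom ℝ)
      = pR ^ N + ∑ i ∈ Finset.Icc 1 m', C (t i) * B i - h := by
    have h1 : F.map (Int.castRingHom ℝ) = X ^ n + 2 + 4 * (H * v).map (Int.castRingHom ℝ)
        + 4 * U.map (Int.castRingHom ℝ) := by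
      rw [hF]
      simp only [Polynomial.map_add, Polynomial.map_mul, Polynomial.map_pow, Polynomial.map_X,
        Polynomial.map_ofNat]
      ring
    have h2 : f - 4 * U.map (Int.castRingHom ℝ) = h := by rw [hfe]; ring
    rw [h1, ← h2, hf]
    ring
  have hFev : ∀ z : ℂ, ev F z = (p.eval z) ^ N + ∑ i ∈ Finset.Icc 1 m', (t i : ℂ) * rv (B i) z
      - rv h z := by
    intro z
    have h1 : ev F z = ((F.map (Int.castRingHom ℝ)).map (algebraMap ℝ ℂ)).eval z := by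
      rw [ev, cp, Polynomial.map_map]
      congr 2
    rw [h1, hFR]
    simp only [Polynomial.map_sub, Polynomial.map_add, Polynomial.map_pow, hpR,
      Polynomial.map_sum, Polynomial.map_mul, Polynomial.map_C, eval_sub, eval_add, eval_pow,
      Polynomial.eval_finsetSum, eval_mul, eval_C, rv]
    rfl
  have hFK : ∀ z ∈ K, ‖ev F z - (p.eval z) ^ N‖ ≤ 1 / 2 * T z ^ N := by
    intro z hz
    have hTN := pow_pos (hTpos z) N
    have h1 : ev F z - (p.eval z) ^ N = ∑ i ∈ Finset.Icc 1 m', (t i : ℂ) * rv (B i) z - rv h z := by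
      rw [hFev]; ring
    rw [h1]
    have h2 : ‖∑ i ∈ Finset.Icc 1 m', (t i : ℂ) * rv (B i) z‖ ≤ 2 / 9 * T z ^ N := by
      calc ‖∑ i ∈ Finset.Icc 1 m', (t i : ℂ) * rv (B i) z‖
          ≤ ∑ i ∈ Finset.Icc 1 m', ‖(t i : ℂ) * rv (B i) z‖ := norm_sum_le _ _
        _ ≤ ∑ i ∈ Finset.Icc 1 m', (1 / 10 : ℝ) ^ i * (2 * T z ^ N) := by
            apply Finset.sum_le_sum
            intro i hi'
            rw [norm_mul, Complex.norm_real, Real.norm_eq_abs]
            have h3 := hBb i hi' z hz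
            calc |t i| * ‖rv (B i) z‖ ≤ 2 * ((1 / 10 : ℝ) ^ i * T z ^ N) :=
                  mul_le_mul (ht i) h3 (norm_nonneg _) (by norm_num)
              _ = _ := by ring
        _ = (∑ i ∈ Finset.Icc 1 m', (1 / 10 : ℝ) ^ i) * (2 * T z ^ N) := by
            rw [Finset.sum_mul]
        _ ≤ 1 / 9 * (2 * T z ^ N) := mul_le_mul_of_nonneg_right (geo_bound m') (by positivity)
        _ = _ := by ring
    calc ‖∑ i ∈ Finset.Icc 1 m', (t i : ℂ) * rv (B i) z - rv h z‖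
        ≤ ‖∑ i ∈ Finset.Icc 1 m', (t i : ℂ) * rv (B i) z‖ + ‖rv h z‖ := norm_sub_le _ _
      _ ≤ 2 / 9 * T z ^ N + 1 / 4 * T z ^ N := add_le_add h2 (hhb' z hz)
      _ ≤ 1 / 2 * T z ^ N := by nlinarith
  have hFoff : ∀ z, z ∉ K → ‖ev F z - (p.eval z) ^ N‖ ≤ 1 / 2 * ‖(p.eval z) ^ N‖ := by
    have hpN : (p ^ N).natDegree = n := by rw [hp.natDegree_pow, hpd, hn]
    have hcF : (cp F).Monic := hFm.map _
    have hcFd : (cp F).natDegree = n := by
      rw [cp, hFm.natDegree_map, hFd]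
    have hdeg' : (cp F - p ^ N).degree < (p ^ N).degree := by
      have h1 : (cp F).degree = (p ^ N).degree := by
        rw [degree_eq_natDegree hcF.ne_zero, degree_eq_natDegree (hp.pow N).ne_zero, hcFd, hpN]
      have h2 : (cp F - p ^ N).degree < (cp F).degree := by
        apply degree_sub_lt_left h1 hcF.ne_zero
        rw [hcF.leadingCoeff, (hp.pow N).leadingCoeff]
      rwa [h1] at h2
    have h3 := hM' K (fun z => T z ^ N) (cp F - p ^ N) (p ^ N) hK (hTcont.pow N) hdeg'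
      (fun z => pow_pos (hTpos z) N)
      (fun z hz => by rw [eval_pow, norm_pow, hpoff z hz, hTz])
      (fun z hz => by
        have := hFK z hz
        rw [eval_sub, eval_pow]
        exact this)
    intro z hz
    have := h3 z hz
    rw [eval_sub, eval_pow] at this
    exact this
  refine ⟨F, hFm, by rw [hFd, hn], hFi, hF0, ?_, ?_⟩
  · intro z hz0
    by_contra hzK
    have h1 := hFoff z hzK
    rw [hz0, zero_sub, norm_neg] at h1
    have h2 : 0 < ‖(p.eval z) ^ N‖ := by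
      rw [norm_pow, hpoff z hzK, ← hTz]
      exact pow_pos (hTpos z) N
    linarith
  · intro z
    rw [← hTz]
    by_cases hzK : z ∈ K
    · have h1 := hFK z hzK
      have h2 : ‖(p.eval z) ^ N‖ ≤ T z ^ N := by
        rw [norm_pow, hTz]
        exact pow_le_pow_left₀ (norm_nonneg _) (hpK z hzK) N
      calc ‖ev F z‖ = ‖(ev F z - (p.eval z) ^ N) + (p.eval z) ^ N‖ := by rw [sub_add_cancel]
        _ ≤ ‖ev F z - (p.eval z) ^ N‖ + ‖(p.eval z) ^ N‖ := norm_add_le _ _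
        _ ≤ 1 / 2 * T z ^ N + T z ^ N := add_le_add h1 h2
        _ = 3 / 2 * T z ^ N := by ring
    · have h1 := hFoff z hzK
      have h2 : ‖(p.eval z) ^ N‖ = T z ^ N := by
        rw [norm_pow, hpoff z hzK, hTz]
      rw [h2] at h1
      calc ‖ev F z‖ = ‖(ev F z - (p.eval z) ^ N) + (p.eval z) ^ N‖ := by rw [sub_add_cancel]
        _ ≤ ‖ev F z - (p.eval z) ^ N‖ + ‖(p.eval z) ^ N‖ := norm_add_le _ _
        _ ≤ 1 / 2 * T z ^ N + T z ^ N := add_le_add h1 h2.le
        _ = 3 / 2 * T z ^ N := by ring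

end Pool.Agent.Work.MP_ce2d68_du.h35
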